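import Pool.Agent.helper82.UM.Spec

/-!
# Project UM (MP_2e0e07_nt), row FAL (helper16)
-/

set_option autoImplicit false

namespace Pool.Agent.UM

open Matrix Polynomial Pool.Agent.GO Pool.Agent.AR Pool.Agent.RG Pool.Agent.HZ Pool.Agent.DS
  Pool.Agent.AX MeasureTheory NumberField

theorem FAL : FAL_stmt := by
  intro r n Φ D hΦ d p _ Γ _ _ _ _ V hV F _ _ _ _ _ _ _ hd ρ hρ Z hZ hz g
  classical
  let V' : (i : Fin r) → Γ →* Matrix (Fin (n i)) (Fin (n i)) F := fun i => mapHom (toF p F) (V i)
  have htoF : Continuous (toF p F) := by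
    show Continuous fun x : ℤ_[p] => algebraMap ℚ_[p] F (x : ℚ_[p])
    exact (continuous_algebraMap ℚ_[p] F).comp continuous_subtype_val
  have hV' : ∀ i, Continuous (V' i) := by
    intro i
    apply continuous_matrix
    intro a b
    show Continuous fun g => toF p F (V i g a b)
    exact htoF.comp ((hV i).matrix_elem a b)
  have hW : Continuous (dsum (dirSum V') ρ) := by
    apply continuous_matrix
    intro a b
    show Continuous fun g => Matrix.fromBlocks (dirSum V' g) 0 0 (ρ g) a b
    rcases a with a | a <;> rcases b with b | b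
    · exact (dirSum_continuous V' hV').matrix_elem a b
    · exact continuous_const
    · exact continuous_const
    · exact hρ.matrix_elem a b
  have hmem : ∀ g, g ∈ kerV V ↔ ∀ i, V i g = 1 := by
    intro g
    unfold kerV
    rw [Subgroup.mem_iInf]
    exact forall_congr' fun i => MonoidHom.mem_ker
  have hNn : (kerV V ⊓ ρ.ker).Normal := by
    refine ⟨fun a ha b => ?_⟩
    obtain ⟨h1, h2⟩ := Subgroup.mem_inf.1 ha
    refine Subgroup.mem_inf.2 ⟨(hmem _).2 fun i => ?_, ?_⟩
    · rw [map_mul, map_mul, (hmem a).1 h1 i, mul_one, ← map_mul, mul_inv_cancel, map_one]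
    · rw [MonoidHom.mem_ker] at h2 ⊢
      rw [map_mul, map_mul, h2, mul_one, ← map_mul, mul_inv_cancel, map_one]
  have hker : kerV V ⊓ ρ.ker ≤ (dsum (dirSum V') ρ).ker := by
    intro a ha
    obtain ⟨h1, h2⟩ := Subgroup.mem_inf.1 ha
    rw [MonoidHom.mem_ker]
    show Matrix.fromBlocks (dirSum V' a) 0 0 (ρ a) = 1
    have h3 : dirSum V' a = 1 := by
      show Matrix.blockDiagonal' (fun i => V' i a) = 1
      have h4 : (fun i => V' i a) = (1 : (i : Fin r) → Matrix (Fin (n i)) (Fin (n i)) F) := by
        funext i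
        show (toF p F).mapMatrix (V i a) = 1
        rw [(hmem a).1 h1 i, map_one]
      rw [h4, Matrix.blockDiagonal'_one]
    rw [h3, MonoidHom.mem_ker.1 h2, Matrix.fromBlocks_one]
  have hcard : Fintype.card (Idx n) + 1 = (∑ i, n i) + 3 := by
    rw [Fintype.card_sum, Fintype.card_sigma, Fintype.card_fin]
    simp only [Fintype.card_fin]
  have heval : ∀ g, MvPolynomial.eval (fun q : Idx n × Idx n => dsum (dirSum V') ρ g q.1 q.2)
      (relG n (Int.castRingHom F) Φ) = ev Φ (fun i => (V' i g).charpoly) (ρ g).trace :=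
    fun g => relG_eval (Int.castRingHom F) Φ V' ρ g
  have h1 := criterion_poly_mod hd (kerV V ⊓ ρ.ker) (dsum (dirSum V') ρ) hW hker
    (relG n (Int.castRingHom F) Φ) (relG_degree n (Int.castRingHom F) Φ D hΦ) Z
    (by
      intro U hU1 hU2 hU3 hU4 g
      rw [hcard] at hU4
      exact hZ U hU1 hU2 hU3 hU4 g)
    (by
      intro s hs
      rw [heval]
      exact hz s hs) g
  rw [heval] at h1
  exact h1

end Pool.Agent.UM
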